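import Pool.Agent.ACK.StmtsA

/-! # Squad ACK, piece STD: standard names of the crossings -/

set_option autoImplicit false

namespace Pool.Agent.ACK.H39

open Pool.Agent.ACK

theorem mem_bk {C : ℕ → List ℕ} {t : Tk} {x : ℕ} : x ∈ bk C t ↔ x ∈ C t.1 := by
  unfold bk
  split_ifs <;> simp

theorem std : StdStmt := by
  classical
  intro N C b hN hcw hlt
  -- the new names
  let f : ℕ → ℕ := fun x =>
    if h : ∃ t ∈ b, x ∈ C t.1 then N * (C (h.choose).1).idxOf x + (h.choose).1 else x
  have hf : ∀ t ∈ b, ∀ x ∈ C t.1, f x = N * (C t.1).idxOf x + t.1 := by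
    intro t ht x hx
    have h : ∃ t ∈ b, x ∈ C t.1 := ⟨t, ht, hx⟩
    have h1 : f x = N * (C (h.choose).1).idxOf x + (h.choose).1 := dif_pos h
    have h2 : (h.choose).1 = t.1 := by
      by_contra hne
      exact hcw.dj _ h.choose_spec.1 _ ht hne h.choose_spec.2 hx
    rw [h1, h2]
  have hmap : ∀ t ∈ b, (C t.1).map f = sc N (fun e => (C e).length) t.1 := by
    intro t ht
    apply List.ext_getElem
    · simp [sc]
    · intro m h1 h2
      have h3 : m < (C t.1).length := by simpa using h1
      rw [List.getElem_map, hf t ht _ (List.getElem_mem h3),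
        (hcw.nd t ht).idxOf_getElem m h3]
      simp [sc]
  have hbk : ∀ t ∈ b, (bk C t).map f = bk (sc N (fun e => (C e).length)) t := by
    intro t ht
    unfold bk
    split_ifs
    · rw [List.map_reverse, hmap t ht]
    · exact hmap t ht
  have hBL : ∀ b' : List Tk, (∀ t ∈ b', t ∈ b) →
      (BL C b').map f = BL (sc N (fun e => (C e).length)) b' := by
    intro b'
    induction b' with
    | nil => intro _; rfl
    | cons t b' ih =>
      intro h
      have e1 : BL C (t :: b') = bk C t ++ BL C b' := rfl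
      have e2 : BL (sc N (fun e => (C e).length)) (t :: b') =
          bk (sc N (fun e => (C e).length)) t ++ BL (sc N (fun e => (C e).length)) b' := rfl
      rw [e1, e2, List.map_append, hbk t (h t (List.mem_cons_self ..)),
        ih fun t' ht' => h t' (List.mem_cons_of_mem _ ht')]
  have hmem : ∀ x, x ∈ BL C b → ∃ t ∈ b, x ∈ C t.1 := by
    intro x hx
    unfold BL at hx
    rw [List.mem_flatMap] at hx
    obtain ⟨t, ht, hx⟩ := hx
    exact ⟨t, ht, mem_bk.1 hx⟩
  have hinj : Set.InjOn f {x | x ∈ BL C b} := by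
    intro x hx y hy hxy
    obtain ⟨t, ht, hx⟩ := hmem x hx
    obtain ⟨t', ht', hy⟩ := hmem y hy
    rw [hf t ht x hx, hf t' ht' y hy] at hxy
    have h1 := hlt t ht
    have h2 := hlt t' ht'
    have h3 : t.1 = t'.1 := by
      have := congrArg (fun z => z % N) hxy
      simpa [Nat.mul_add_mod, Nat.mod_eq_of_lt h1, Nat.mod_eq_of_lt h2] using this
    have h4 : (C t.1).idxOf x = (C t'.1).idxOf y := by
      rw [h3] at hxy ⊢
      have := Nat.add_right_cancel hxy
      exact Nat.eq_of_mul_eq_mul_left hN this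
    rw [← h3] at h4 hy
    exact (List.idxOf_inj hx).1 h4
  rw [← hBL b fun t ht => ht]
  exact Quot.sound (Mv.ren _ f hinj)

end Pool.Agent.ACK.H39
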