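import Pool.Agent.ACK.StmtsC

/-! # Squad ACK, piece WHT: the number of the white faces -/

set_option autoImplicit false

namespace Pool.Agent.ACK.H39

open Pool.Agent.ACK Pool.Agent.ACK.C

theorem tk_append_left (l : List Tk) (t : Tk) {k : ℕ} (hk : k < l.length) :
    tk (l ++ [t]) k = tk l k := by
  unfold tk
  exact List.getD_append _ _ _ _ hk

theorem tk_append_last (l : List Tk) (t : Tk) : tk (l ++ [t]) l.length = t := by
  unfold tk
  rw [List.getD_append_right _ _ _ _ le_rfl, Nat.sub_self]
  rfl

theorem mt_spec (e : ℕ) : ∀ (r : List Tk) (x : ℕ) (d : Bool), mt e r = some (x, d) →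
    x < r.length ∧ tk r.reverse x = (e, d)
  | [], x, d, h => by
    have h1 : (none : Option (ℕ × Bool)) = some (x, d) := h
    exact absurd h1 (by simp)
  | t :: r, x, d, h => by
    have h1 : (bif t.1 == e then some (r.length, t.2) else mt e r) = some (x, d) := h
    rw [List.reverse_cons]
    by_cases he : t.1 = e
    · have h2 : (t.1 == e) = true := by simp [he]
      rw [h2, cond_true] at h1
      have h3 := Option.some.inj h1
      have hx : r.length = x := congrArg Prod.fst h3
      have hd : t.2 = d := congrArg Prod.snd h3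
      refine ⟨by rw [List.length_cons, ← hx]; exact Nat.lt_succ_self _, ?_⟩
      have h4 := tk_append_last r.reverse t
      rw [List.length_reverse, hx] at h4
      rw [h4, ← he, ← hd]
    · have h2 : (t.1 == e) = false := by simp [he]
      rw [h2, cond_false] at h1
      obtain ⟨h3, h4⟩ := mt_spec e r x d h1
      refine ⟨by rw [List.length_cons]; omega, ?_⟩
      rw [tk_append_left _ _ (by rw [List.length_reverse]; exact h3)]
      exact h4

/-- the property of the members of `chs r` -/
def Pq (b : List Tk) (n : ℕ) (q : ℕ × ℕ × Bool × ℕ) : Prop :=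
  q.1 < q.2.1 ∧ q.2.1 < n ∧ (tk b q.1).1 = q.2.2.2 ∧ (tk b q.2.1).1 = q.2.2.2 ∧
    q.2.2.1 = ((tk b q.1).2 == (tk b q.2.1).2)

theorem chs_spec : ∀ (r : List Tk), ∀ q ∈ chs r, Pq r.reverse r.length q
  | [], q, h => by
    have h1 : q ∈ ([] : List (ℕ × ℕ × Bool × ℕ)) := h
    exact absurd h1 (by simp)
  | t :: r, q, h => by
    have lift : ∀ q, Pq r.reverse r.length q → Pq (t :: r).reverse (t :: r).length q := by
      rintro q ⟨h1, h2, h3, h4, h5⟩
      have e1 : tk (t :: r).reverse q.1 = tk r.reverse q.1 := by
        rw [List.reverse_cons]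
        exact tk_append_left _ _ (by rw [List.length_reverse]; omega)
      have e2 : tk (t :: r).reverse q.2.1 = tk r.reverse q.2.1 := by
        rw [List.reverse_cons]
        exact tk_append_left _ _ (by rw [List.length_reverse]; omega)
      refine ⟨h1, by rw [List.length_cons]; omega, ?_, ?_, ?_⟩
      · rw [e1]; exact h3
      · rw [e2]; exact h4
      · rw [e1, e2]; exact h5
    have hch : chs (t :: r) = (match mt t.1 r with
      | none => chs r
      | some (x, d) => (x, r.length, d == t.2, t.1) :: chs r) := rfl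
    rw [hch] at h
    rcases hm : mt t.1 r with _ | ⟨x, d⟩
    · rw [hm] at h
      exact lift q (chs_spec r q h)
    · rw [hm] at h
      have h' : q ∈ (x, r.length, d == t.2, t.1) :: chs r := h
      rcases List.mem_cons.1 h' with h1 | h1
      · obtain ⟨h2, h3⟩ := mt_spec t.1 r x d hm
        have e1 : tk (t :: r).reverse x = (t.1, d) := by
          rw [List.reverse_cons, tk_append_left _ _ (by rw [List.length_reverse]; exact h2), h3]
        have e2 : tk (t :: r).reverse r.length = t := by
          rw [List.reverse_cons]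
          have := tk_append_last r.reverse t
          rw [List.length_reverse] at this
          exact this
        rw [h1]
        refine ⟨h2, by rw [List.length_cons]; exact Nat.lt_succ_self _, ?_, ?_, ?_⟩
        · show (tk (t :: r).reverse x).1 = t.1
          rw [e1]
        · show (tk (t :: r).reverse r.length).1 = t.1
          rw [e2]
        · show (d == t.2) = ((tk (t :: r).reverse x).2 == (tk (t :: r).reverse r.length).2)
          rw [e1, e2]
      · exact lift q (chs_spec r q h1)

theorem wrel_spec {α : Type} (F : ℕ → α) (p : ℕ → Bool) (b : List Tk)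
    (hE : ∀ x y, x < y → y < 12 → (tk b x).1 = (tk b y).1 → p (tk b x).1 = false →
      F ((x + 11) % 12) = F x ∧ F ((y + 11) % 12) = F y)
    (hS : ∀ x y, x < y → y < 12 → (tk b x).1 = (tk b y).1 → p (tk b x).1 = true →
      (tk b x).2 = (tk b y).2 → F y = F ((x + 11) % 12) ∧ F x = F ((y + 11) % 12))
    (hD : ∀ x y, x < y → y < 12 → (tk b x).1 = (tk b y).1 → p (tk b x).1 = true →
      (tk b x).2 ≠ (tk b y).2 → F x = F y ∧ F ((x + 11) % 12) = F ((y + 11) % 12)) :
    ∀ (L : List (ℕ × ℕ × Bool × ℕ)), (∀ q ∈ L, Pq b 12 q) →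
      ∀ a ∈ wrel p L, a.1 < 12 ∧ a.2 < 12 ∧ F a.1 = F a.2
  | [], _, a, h => by
    have h1 : a ∈ ([] : List (ℕ × ℕ)) := h
    exact absurd h1 (by simp)
  | (x, y, d, e) :: L, hL, a, h => by
    have ih := wrel_spec F p b hE hS hD L (fun q hq => hL q (List.mem_cons_of_mem _ hq))
    obtain ⟨h1, h2, h3, h4, h5⟩ := hL _ (List.mem_cons_self ..)
    have h1 : x < y := h1
    have h2 : y < 12 := h2
    have h3 : (tk b x).1 = e := h3
    have h4 : (tk b y).1 = e := h4
    have h5 : d = ((tk b x).2 == (tk b y).2) := h5
    have hxy : (tk b x).1 = (tk b y).1 := h3.trans h4.symm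
    have hx : x < 12 := h1.trans h2
    have hm1 : (x + 11) % 12 < 12 := Nat.mod_lt _ (by norm_num)
    have hm2 : (y + 11) % 12 < 12 := Nat.mod_lt _ (by norm_num)
    have hw : wrel p ((x, y, d, e) :: L) =
      (bif p e then (bif d then (y, (x + 11) % 12) :: (x, (y + 11) % 12) :: wrel p L
        else (x, y) :: ((x + 11) % 12, (y + 11) % 12) :: wrel p L)
      else ((x + 11) % 12, x) :: ((y + 11) % 12, y) :: wrel p L) := rfl
    rw [hw] at h
    rcases hpe : p e with _ | _
    · rw [hpe, cond_false] at h
      obtain ⟨k1, k2⟩ := hE x y h1 h2 hxy (by rw [h3]; exact hpe)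
      rcases List.mem_cons.1 h with h6 | h6
      · rw [h6]; exact ⟨hm1, hx, k1⟩
      · rcases List.mem_cons.1 h6 with h7 | h7
        · rw [h7]; exact ⟨hm2, h2, k2⟩
        · exact ih a h7
    · rw [hpe, cond_true] at h
      rcases hdd : d with _ | _
      · rw [hdd, cond_false] at h
        have hne : (tk b x).2 ≠ (tk b y).2 := by
          intro hc
          rw [hdd, hc] at h5
          simp at h5
        obtain ⟨k1, k2⟩ := hD x y h1 h2 hxy (by rw [h3]; exact hpe) hne
        rcases List.mem_cons.1 h with h6 | h6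
        · rw [h6]; exact ⟨hx, h2, k1⟩
        · rcases List.mem_cons.1 h6 with h7 | h7
          · rw [h7]; exact ⟨hm1, hm2, k2⟩
          · exact ih a h7
      · rw [hdd, cond_true] at h
        have heq : (tk b x).2 = (tk b y).2 := by
          rw [hdd] at h5
          exact eq_of_beq h5.symm
        obtain ⟨k1, k2⟩ := hS x y h1 h2 hxy (by rw [h3]; exact hpe) heq
        rcases List.mem_cons.1 h with h6 | h6
        · rw [h6]; exact ⟨h2, hm1, k1⟩
        · rcases List.mem_cons.1 h6 with h7 | h7
          · rw [h7]; exact ⟨hx, hm2, k2⟩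
          · exact ih a h7

theorem wht (h1 : LadStmt) (h2 : SurStmt) (h3 : LblStmt) : WhtStmt := by
  intro c C b s hS
  obtain ⟨F, hF⟩ : ∃ F : ℕ → Quot (CR (wd c (BL C b)) (op s)),
      F = fun k => cl (wd c (BL C b)) (op s) (gp c C b k) := ⟨_, rfl⟩
  have hFk : ∀ k, F k = cl (wd c (BL C b)) (op s) (gp c C b k) := fun k => by rw [hF]
  have hcard : nc (wd c (BL C b)) (op s) = Set.ncard (F '' {k | k < 12}) := by
    have hu : F '' {k | k < 12} = Set.univ := by
      rw [Set.eq_univ_iff_forall]
      intro q
      induction q using Quot.ind with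
      | mk p =>
        obtain ⟨k, hk, hp⟩ := h2 c C b s hS p
        exact ⟨k, hk, by rw [hFk]; exact hp.symm⟩
    rw [hu, Set.ncard_univ]
    rfl
  rw [hcard]
  have hL := h1 c C b s hS
  have key := wrel_spec F (fun e => decide (Odd (C e).length)) b
    (fun x y hxy hy he hp => by
      have hev : Even (C (tk b x).1).length := by
        have := of_decide_eq_false hp
        exact Nat.not_odd_iff_even.1 this
      obtain ⟨k1, k2⟩ := (hL x y hxy hy he).1 hev
      rw [hFk, hFk, hFk, hFk]
      exact ⟨k1, k2⟩)
    (fun x y hxy hy he hp hd => by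
      have hod : Odd (C (tk b x).1).length := of_decide_eq_true hp
      obtain ⟨k1, k2⟩ := (hL x y hxy hy he).2.1 hod hd
      rw [hFk, hFk, hFk, hFk]
      exact ⟨k1, k2⟩)
    (fun x y hxy hy he hp hd => by
      have hod : Odd (C (tk b x).1).length := of_decide_eq_true hp
      obtain ⟨k1, k2⟩ := (hL x y hxy hy he).2.2 hod hd
      rw [hFk, hFk, hFk, hFk]
      exact ⟨k1, k2⟩)
    (chs b.reverse) (fun q hq => by
      have := chs_spec b.reverse q hq
      rw [List.reverse_reverse, List.length_reverse, hS.len] at this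
      exact this)
  exact h3 _ F _ key

end Pool.Agent.ACK.H39
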